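import Pool.Agent.Zk10.X3

/-!
MP_19ffc6_ag: resolution of singularities for the quotients of products of curves by arbitrary
finite groups, in all dimensions, with wild ramification.

Let `k` be a perfect field of characteristic `p`, and let a finite group `G` act on smooth affine
curves `Y 0, ..., Y n` over `k`, and faithfully on `Y 0`. Assume that the orders of
the inertia groups of the points of `Y 0` are not divisible by `p ^ 2`; for example `p ^ 2` does not
divide the order of `G`. Then the quotient `(Y 0 × ... × Y n) / G` has a resolution of
singularities. There are no conditions on the structure of `G` (which need not be solvable, and no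
Sylow subgroup needs to be normal), on the ramification (the breaks are arbitrary) or on the
action on `Y 1, ..., Y n` (which need not be faithful). In the starting files this was proved for
abelian groups (MP_19ffc6_ag.AbelianQuotients), with Artin-Schreier and Kummer towers, which do not
exist for other groups.

The proof: let `τ` be a generator of the wild inertia group, of order `p`, of a point `𝔓` of
`Y 0`. (a) Let `D` be a common multiple of all breaks of the powers of `τ` at its fixed points on
the curves `Y i`. On the product of the curves there is the graded algebra (the coordinate ring of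
a weighted blowup) in which the uniformizer at the fixed point `y` of `τ` on `Y i` has the weight
`D / b`, where `b` is the break at `y`; it is defined by filtrations of the coordinate rings
(`Fil`, `RR`), and is regular, since it is locally generated by part of a regular system of
parameters (`RC_reg`). (b) The operator `T ^ D (τ - 1)` acts on the graded algebra, and its
leading form `∑ c_i t_i ^ (b_i + 1) d / d t_i` has no zeros outside the vertex (`nd_fil`, `nd_pow`).
(c) The graded algebras at the points of an orbit are permuted by `G` (`PP_conj`). (d) The
quotient of the weighted blowup by `G` is resolved as a stack quotient by `𝔾_m` of a regular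
scheme, with the machinery of the starting files behind WeightedWildQuotients, over the ring of
invariants of the product (`affRes`).

helper10, with modules by helper15 (the affine version `affRes` of his theorem for arbitrary groups
over bases of positive characteristic; the versions over perfect fields), helper57 (filtrations of curves, breaks), helper52
(regularity of the graded algebra, smoothness and derivations of tensor products), helper50
(generators), helper86 (products of varieties are integral); built on the library of the starting
files (WeightedWildQuotients, LinearGroupTowers and others).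
-/

set_option autoImplicit false

open AlgebraicGeometry CategoryTheory
open Pool.Agent.H920R2 (IsVariety HasResolution)

namespace Pool.Agent.Results.MP_19ffc6_ag.FiniteGroupProducts

/-- The `k`-algebra `C`, with the homomorphisms `j i : B i → C`, is the tensor product of the
`k`-algebras `B i` (given by its universal property), so that `Spec C` is the product of the
schemes `Spec (B i)` over `k`. -/
def IsTensorProduct {k : Type} [Field k] {n : ℕ} {B : Fin n → Type} [∀ i, CommRing (B i)]
    [∀ i, Algebra k (B i)] {C : Type} [CommRing C] [Algebra k C] (j : ∀ i, B i →ₐ[k] C) : Prop :=
  ∀ (T : Type) [CommRing T] [Algebra k T] (f : ∀ i, B i →ₐ[k] T),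
    ∃! g : C →ₐ[k] T, ∀ i, g.comp (j i) = f i

/-- The quotient `Spec C / G`: the spectrum of the ring of invariants. -/
noncomputable def quot (k C G : Type) [Field k] [CommRing C] [Algebra k C] [Group G]
    [MulSemiringAction G C] [SMulCommClass G k C] : Scheme.{0} :=
  Spec (CommRingCat.of (FixedPoints.subalgebra k C G))

/-- The structure morphism of the quotient. -/
noncomputable def quotStr (k C G : Type) [Field k] [CommRing C] [Algebra k C] [Group G]
    [MulSemiringAction G C] [SMulCommClass G k C] : quot k C G ⟶ Spec (CommRingCat.of k) :=
  Spec.map (CommRingCat.ofHom (algebraMap k (FixedPoints.subalgebra k C G)))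

/-- Let `k` be a perfect field of characteristic `p > 0` and let `G` be a finite group which acts
on smooth affine curves `Y 0 = Spec (B 0)`, ..., `Y n = Spec (B n)` over `k`, with integral product
`Spec C` (this is always so if `k` is algebraically closed), and faithfully on `Y 0`. If the orders
of the inertia groups of the points of `Y 0` are not divisible by `p ^ 2` (for example if `p ^ 2`
does not divide the order of `G`), then the quotient `(Y 0 × ... × Y n) / G` is a variety and has a
resolution of singularities. -/
theorem result (p : ℕ) [Fact p.Prime] (k : Type) [Field k] [PerfectField k] [CharP k p]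
    (G : Type) [Group G] [Finite G] (n : ℕ) (B : Fin (n + 1) → Type) [∀ i, CommRing (B i)]
    [∀ i, IsDedekindDomain (B i)] [∀ i, Algebra k (B i)] [∀ i, Algebra.FiniteType k (B i)]
    [∀ i, MulSemiringAction G (B i)] [∀ i, SMulCommClass G k (B i)] [FaithfulSMul G (B 0)]
    (hG : ∀ 𝔓 : Ideal (B 0), 𝔓.IsMaximal → ¬ p ^ 2 ∣ Nat.card (𝔓.inertia G))
    (C : Type) [CommRing C] [IsDomain C] [Algebra k C] [MulSemiringAction G C] [SMulCommClass G k C]
    (j : ∀ i, B i →ₐ[k] C) (hj : IsTensorProduct j)
    (hjG : ∀ (g : G) (i : Fin (n + 1)) (b : B i), j i (g • b) = g • j i b) :
    IsVariety (quotStr k C G) ∧ HasResolution (quotStr k C G) := by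
  have hftC : Algebra.FiniteType k C := Pool.Agent.Zk10.PG.tens_ft hj
  let θ : ∀ i, G →* (B i ≃ₐ[k] B i) := fun i => MulSemiringAction.toAlgAut G k (B i)
  let Θ : G →* (C ≃ₐ[k] C) := MulSemiringAction.toAlgAut G k C
  have hT : Function.Injective (θ 0) := by
    intro a b hab
    exact FaithfulSMul.eq_of_smul_eq_smul fun o : B 0 =>
      congrArg (fun f : B 0 ≃ₐ[k] B 0 => f o) hab
  have hinv : FixedPoints.subalgebra k C G = Pool.Agent.Zk15.F.invS Θ := by
    ext b
    rfl
  have hin : ∀ 𝔓 : Ideal (B 0), 𝔓.IsMaximal →
      ¬ p ^ 2 ∣ Nat.card (Pool.Agent.Zk15.F.inG (θ 0) 𝔓) := hG
  refine ⟨?_, ?_⟩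
  · have h1 : Algebra.FiniteType k (FixedPoints.subalgebra k C G) := by
      rw [hinv]
      exact Pool.Agent.Zk15.F.invS_ft Θ
    exact Pool.Agent.H920R2.isVariety_spec
  · have h1 := Pool.Agent.Zk10.PX.affine_main p (θ := θ) hT hin hj Θ
      (fun g i b => (hjG g i b).symm)
    rw [← hinv] at h1
    exact h1

end Pool.Agent.Results.MP_19ffc6_ag.FiniteGroupProducts
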