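import Pool.Agent.Zk10.X2

/-!
MP_19ffc6_ag: resolution of singularities for the quotients of products of proper curves by
arbitrary finite groups, in all dimensions, with wild ramification, over perfect fields.

Let `k` be a perfect field of characteristic `p`, and let a finite group `G` act on integral proper
curves `Y 0, ..., Y n` over `k`, possibly singular, and faithfully on `Y 0`. Assume that the orders
of the inertia groups of the closed points of `Y 0` are not divisible by `p ^ 2`; for example
`p ^ 2` does not divide the order of `G`. Then the quotient `(Y 0 × ... × Y n) / G`, all its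
nonempty open subschemes, and all varieties `X` with a `G`-invariant morphism from the product
which is the quotient over a nonempty open subset of `X`, have resolutions of singularities. There
are no conditions on the structure of `G`, on the ramification (the breaks are arbitrary) or on the
action on `Y 1, ..., Y n` (which need not be faithful).

The proof: let `F` be the function field of the quotient. (a) Let `t i` be a separating
`G`-invariant function on `Y i`. The smooth projective model of `Y i` is covered by the affine
curves with the coordinate rings `S (t i)` and `S (1 / t i)`, the integral closures of `k[t i]` and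
`k[1 / t i]`. The product of the curves `Y 1, ..., Y n` is embedded with coordinates which are
permuted by `G` and such that for all subgroups of order `p` the filtrations of the coordinate rings
with the weights `D / b` at the fixed points (`b` the break, `D` a common multiple of all breaks)
are generated by the coordinates, with weights which are the same on all charts (`two_charts`,
`chart_all`). (b) At a wildly ramified point `𝔓` of `Y 0` there is the weighted blowup of the
product given by these filtrations for the wild inertia group of `𝔓`; it is regular and the
leading form of its generator has no zeros outside the vertex (`chart_wd`; this is the local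
result of MP_19ffc6_ag.FiniteGroupProducts, now on all charts of the proper curves). (c) The
weighted blowups of all charts are glued over the complete curve `Y 0`, and the quotient by `G` is
resolved as a stack quotient by `𝔾_m` of a regular scheme (`projJ_dom`). The result is a smooth
projective model `M` of `F` (`main_ff`), with the property that the invariants of affine models
of the curves are regular on the charts of `M`. (d) By this property the local rings of `M` are
dominated by valuation rings whose centers on the product of the `Y i` lie in one orbit, and there
is a morphism `M → X` (`res_of_model2`, `Pool.Agent.Zk10.V1` to `V12`).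

helper10, with modules by helper15 (gluing of weighted blowups over complete curves with
domination, versions over perfect fields, the scheme theorem), helper75 (the morphism from the
model), helper57 (comparison of the filtrations on two charts, breaks), helper52 (generators,
regularity), helper50 (generators, wreaths of coordinates), helper86 (charts, tensor products),
helper14 (statements on curves); built on the library of the starting files
(WeightedWildQuotients and others).
-/

set_option autoImplicit false

open AlgebraicGeometry CategoryTheory
open Pool.Agent.H920R2 (IsVariety HasResolution)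

namespace Pool.Agent.Results.MP_19ffc6_ag.FiniteGroupProperCurves

section function_field

variable {k : Type} [Field k] {Y : Scheme.{0}} [IsIntegral Y]

/-- The function field of the integral scheme `Y` over `k`, with structure morphism `y`, that is, the
local ring at the generic point. -/
def FunctionField (_y : Y ⟶ Spec (.of k)) : Type := Y.functionField

noncomputable instance (y : Y ⟶ Spec (.of k)) : Field (FunctionField y) :=
  (inferInstance : Field Y.functionField)

/-- The function field is an algebra over `k`: the element `c` of `k` acts by the rational function
which is given by the regular function `y ^ * c` on `Y`. -/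
noncomputable instance (y : Y ⟶ Spec (.of k)) : Algebra k (FunctionField y) :=
  RingHom.toAlgebra ((Scheme.ΓSpecIso (.of k)).inv ≫ y.appTop ≫
    Y.presheaf.germ ⊤ (genericPoint Y) trivial).hom

end function_field

/-- Every point of `Y` has an affine open neighbourhood which is invariant under the group `G` of
automorphisms `ρ g` of `Y`. This holds for all finite groups if `Y` is projective, for example for
all curves. -/
def HasInvariantAffineCover {Y : Scheme.{0}} {G : Type} [Group G] (ρ : G →* Aut Y) : Prop :=
  ∀ a : Y, ∃ V : Y.Opens, a ∈ V ∧ IsAffineOpen V ∧ ∀ g, (ρ g).hom ⁻¹ᵁ V = V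

/-- The scheme `Z` with the projections `pr i` is the product over `k` of the schemes `Y i`. -/
def IsProduct {k : Type} [Field k] {n : ℕ} {Y : Fin n → Scheme.{0}}
    (y : ∀ i, Y i ⟶ Spec (.of k)) {Z : Scheme.{0}} (z : Z ⟶ Spec (.of k))
    (pr : ∀ i, Z ⟶ Y i) : Prop :=
  (∀ i, pr i ≫ y i = z) ∧
  ∀ (T : Scheme.{0}) (t : T ⟶ Spec (.of k)) (f : ∀ i, T ⟶ Y i), (∀ i, f i ≫ y i = t) →
    ∃! g : T ⟶ Z, g ≫ z = t ∧ ∀ i, g ≫ pr i = f i

/-- The ring of regular functions on the open subset `U` of `X`. -/
def Functions (X : Scheme.{0}) (U : X.Opens) : Type := Γ(X, U)

/-- The inverse image of the open subset `U` of `X` with respect to the morphism `q : Z → X`. -/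
def preimage {Z X : Scheme.{0}} (q : Z ⟶ X) (U : X.Opens) : Z.Opens := q ⁻¹ᵁ U

/-- The function `q ^ * w` on `V`, for a morphism `q : Z → X`, a function `w` on the open subset `U`
of `X` and an open subset `V` of `Z` which is mapped to `U`. -/
def pullback {Z X : Scheme.{0}} (q : Z ⟶ X) {U : X.Opens} {V : Z.Opens} (h : V ≤ preimage q U)
    (w : Functions X U) : Functions Z V := (q.appLE U V h).hom w

/-- The morphism `q : Z → X` is invariant under the group `G`, acting on `Z` by the automorphisms
`σ g`, and over some nonempty affine open subset `U` of `X` it is the quotient by `G`: the open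
subset `q ⁻¹ U` is affine, and the homomorphism from the functions on `U` to the functions on
`q ⁻¹ U` is injective with the `G`-invariant functions as image. For example, `X` is the quotient
`Z / G`. -/
def IsGenericQuotient {G : Type} [Group G] {Z X : Scheme.{0}} (σ : G →* Aut Z) (q : Z ⟶ X) :
    Prop :=
  (∀ g, (σ g).hom ≫ q = q) ∧
  ∃ U : X.Opens, (U : Set X).Nonempty ∧ IsAffineOpen U ∧ IsAffineOpen (preimage q U) ∧
    Function.Injective (pullback q (le_refl (preimage q U))) ∧
    ∀ a : Functions Z (preimage q U),
      (∀ g (h : preimage q U ≤ preimage (σ g).hom (preimage q U)), pullback (σ g).hom h a = a) →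
      ∃ w : Functions X U, pullback q (le_refl (preimage q U)) w = a

/-- The inertia group of the point `a` of `Y`: the elements `g` of the group `G`, acting on `Y` by
the automorphisms `ρ g`, which fix `a` and act trivially on the residue field at `a`: the
composition of the morphism `Spec κ(a) → Y` with `ρ g` is this morphism. -/
def inertia {Y : Scheme.{0}} {G : Type} [Group G] (ρ : G →* Aut Y) (a : Y) : Set G :=
  {g | Y.fromSpecResidueField a ≫ (ρ g).hom = Y.fromSpecResidueField a}

/-- Let `k` be a perfect field of characteristic `p > 0` and `G` a finite group which acts on the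
integral proper curves `Y 0, ..., Y n` over `k` (possibly singular) by the automorphisms `ρ i g`,
and faithfully on `Y 0`. Assume that the orders of the inertia groups of the points of `Y 0` other
than the generic point are not divisible by `p ^ 2` (for example that `p ^ 2` does not divide the
order of `G`). Let the product `Z` of the `Y i` be integral (this is always so if `k` is
algebraically closed) and let `X` be the quotient `Z / G`, or a variety which is the quotient over a
nonempty open subset. Then every nonempty open subscheme `U` of `X`, in particular `X` itself, is a
variety and has a resolution of singularities. -/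
theorem result (p : ℕ) [Fact p.Prime] (k : Type) [Field k] [CharP k p] [PerfectField k]
    (G : Type) [Group G] [Finite G] (n : ℕ) (Y : Fin (n + 1) → Scheme.{0})
    [∀ i, IsIntegral (Y i)] (y : ∀ i, Y i ⟶ Spec (.of k)) [∀ i, IsProper (y i)]
    (hdim : ∀ i, Algebra.trdeg k (FunctionField (y i)) = 1) (ρ : ∀ i, G →* Aut (Y i))
    (hρ : ∀ i g, (ρ i g).hom ≫ y i = y i) (hρ' : ∀ i, HasInvariantAffineCover (ρ i))
    (hinj : Function.Injective (ρ 0))
    (hin : ∀ a : Y 0, a ≠ genericPoint (Y 0) → ¬ p ^ 2 ∣ Nat.card (inertia (ρ 0) a))
    (Z : Scheme.{0}) [IsIntegral Z] (z : Z ⟶ Spec (.of k)) (pr : ∀ i, Z ⟶ Y i)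
    (hZ : IsProduct y z pr) (σ : G →* Aut Z)
    (hσ : ∀ g i, (σ g).hom ≫ pr i = pr i ≫ (ρ i g).hom)
    (X : Scheme.{0}) [IsIntegral X] (x : X ⟶ Spec (.of k)) [IsSeparated x]
    [LocallyOfFiniteType x] [QuasiCompact x] (q : Z ⟶ X) (hqx : q ≫ x = z)
    (hq : IsGenericQuotient σ q) (U : X.Opens) (hU : (U : Set X).Nonempty) :
    IsVariety (X := U.toScheme) (U.ι ≫ x) ∧ HasResolution (X := U.toScheme) (U.ι ≫ x) := by
  have hZ' : Pool.Agent.Zk10.Sch.IsProd y z pr := by
    refine ⟨hZ.1, fun T t f hf => (hZ.2 T t f hf).exists, fun T g g' h1 h2 => ?_⟩
    have h3 : ∀ i, (g ≫ pr i) ≫ y i = g ≫ z := fun i => by rw [Category.assoc, hZ.1]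
    exact (hZ.2 T (g ≫ z) (fun i => g ≫ pr i) h3).unique ⟨rfl, fun i => rfl⟩
      ⟨h1.symm, fun i => (h2 i).symm⟩
  obtain ⟨hq1, U', h1, h2, h3, h4, h5⟩ := hq
  have h6 : q.appLE U' (q ⁻¹ᵁ U') le_rfl = q.app U' := Scheme.Hom.appLE_eq_app q
  have h4' : Function.Injective (q.app U') := by rw [← h6]; exact h4
  refine Pool.Agent.Zk10.Sch.final4 (Pool.Agent.Zk10.Sch.sff p k) n Y y hdim ρ hinj hρ hρ' hin Z z
    pr hZ' σ hσ X x q hqx hq1 ⟨U', h1, h2, h3, h4', fun a ha => ?_⟩ U hU
  obtain ⟨w, hw⟩ := h5 a ha
  exact ⟨w, by rw [← h6]; exact hw⟩

end Pool.Agent.Results.MP_19ffc6_ag.FiniteGroupProperCurves
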