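import Pool.Agent.Zk10.Y5
import Pool.Agent.Zk10.NWT4
import Pool.Agent.Zk10.NWF
import Pool.Agent.Zk10.NWT5
import Pool.Agent.H920R2.Sr1

/-!
MP_19ffc6_ag: resolution of wild quotient singularities with nondegenerate leading form, in all
dimensions.

Let `k` be an algebraically closed field of characteristic `p` and let the finite group `G` act on a
smooth affine variety `Z = Spec B` over `k`. Assume that the inertia group of each closed point is
trivial or of order `p`, and that in the second case the action is nondegenerate at the point: the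
generator `τ` has in suitable local coordinates the form `τ (x i) = x i + f i (x) + ...`, with
weighted homogeneous polynomials `f i` of degree `w i + D` (`w i` the weight of `x i`) which have no
common zero except the origin, up to terms of weight greater than `w i + D`. Then the points with
nontrivial inertia group are isolated (`nd_fin`), and the quotient `Z / G`, which has isolated wild
quotient singularities, has a resolution of singularities. There is no condition on the structure of
the group `G` or on the dimension.

Examples of nondegenerate actions (not formalised here):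
* `τ` acts on the coordinates separately, `τ (x i) = x i + c i * x i ^ (b i + 1) + ...`, for example
  at isolated fixed points on products of curves; the weights are `D / b i`, `D` a common multiple
  of the breaks `b i`. Here no factor needs to have a faithful action, and the condition on the
  inertia groups concerns the points of the product only.
* the involution `-1` of an ordinary abelian variety in characteristic `2` (Kummer varieties):
  `f i = x i ^ 2`, `D = 1`; more generally automorphisms of order `p` with isolated fixed points of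
  ordinary abelian varieties: the formal group is a formal torus, with character lattice a sum of
  copies of `ℤ_p[ζ_p]`, and in each copy `τ (x j) = x j + x (j + 1) + ...`,
  `τ (x (p - 2)) = x (p - 2) ± x 0 ^ p + ...`, with the weights `1, 2, ..., p - 1` and `D = 1`;
* regular unipotent elements of order `p` (`p` at least the Coxeter number) on flag varieties, with
  the heights of the roots as weights, for example on projective spaces of dimension less than `p`.

Formalised example (`torus`): let `T` be the torus `t 0 * ... * t (p - 1) = 1` of dimension `p - 1`;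
the quotient of `T ^ m`, of dimension `m (p - 1)`, by the cyclic permutation of the coordinates has
a resolution. This is the quotient by an automorphism of order `p` of a torus with character lattice
`ℤ[ζ_p] ^ m`; for `p = 2` it is the inversion of `𝔾_m ^ m`.

The proof: (a) The weighted ideals `I m` at the points with nontrivial inertia, chosen compatibly
with the action of `G`, define the extended Rees algebra `R = ⊕ I m T ^ m`, the coordinate ring of
a weighted blowup of `Z` (`exists_sys`, `exists_RS`); it is regular (`RS_reg`) and of finite type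
(`RS_ft`). (b) The action raises the weights by `D`: `(τ - 1) I m ⊆ I (m + D)` (`lok_step`); the
operator `T ^ D (τ - 1)` of `R` has the leading form `∑ f i ∂ / ∂ x i`, which has no zeros outside
the vertex: hence the ideal of the fixed points of `τ` on `R` is there locally principal, generated
by `T ^ (-D)` (`RS_act`), and the ring of invariants of `R` is regular outside the vertex. (c) The
quotient of the weighted blowup by `G` is the quotient of this regular scheme by `𝔾_m`, whose
stabilizers are diagonalizable (for example `μ_p`), and is resolved by a sequence of weighted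
blowups which reduce the order of the stabilizers (theorem of the starting files behind
WeightedWildQuotients).

Modules of the proof by helper20 (`RS_act`), helper52 (`RS_ft`, `RS_reg`, transport of the local
data, `laurent_facts`), helper57 (`lok_step`) and helper86 (`nd_ext`, `ind_of`, `nd_iso`).
-/

set_option autoImplicit false

open AlgebraicGeometry CategoryTheory
open Pool.Agent.H920R2 (IsVariety HasResolution)

namespace Pool.Agent.Results.MP_19ffc6_ag.NondegenerateWildQuotients

section local_data

variable {B : Type} [CommRing B] (𝔪 : Ideal B) {n : ℕ} (x : Fin n → B)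

/-- The functions `x 0, ..., x (n - 1)` are local coordinates (a regular system of parameters) at
the point `𝔪`: they vanish at `𝔪`, generate the ideal `𝔪` locally at the point, and their number is
the dimension of the variety at the point. -/
def IsLocalCoordinates : Prop :=
  (∀ i, x i ∈ 𝔪) ∧ (∀ b ∈ 𝔪, ∃ s, s ∉ 𝔪 ∧ s * b ∈ Ideal.span (Set.range x)) ∧ 𝔪.height = n

/-- If the coordinate `x i` has the weight `w i`, then the function `b` has locally at `𝔪` at least
the weight `m`: the product of `b` with some function `s` which is not zero at `𝔪` is a linear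
combination of monomials in the `x i` of weight at least `m`, with coefficients in `B`. -/
def HasWeight (w : Fin n → ℕ) (m : ℕ) (b : B) : Prop :=
  ∃ s, s ∉ 𝔪 ∧ s * b ∈ Ideal.span {y | ∃ a : Fin n → ℕ, m ≤ ∑ i, w i * a i ∧ y = ∏ i, x i ^ a i}

end local_data

/-- The inertia group of the point `𝔪` has order `p`, and the action of the generator `τ` of this
group is nondegenerate: for suitable local coordinates `x i` at `𝔪` and weights `w i > 0`, `D > 0`,
`τ (x i) - x i = f i (x) + (terms of weight > w i + D)` with polynomials `f i` over `k`, weighted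
homogeneous of degree `w i + D`, which have no common zero except the origin. -/
def IsNondegenerate (p : ℕ) (k G : Type) {B : Type} [Field k] [Group G] [CommRing B] [Algebra k B]
    [MulSemiringAction G B] (𝔪 : Ideal B) : Prop :=
  Nat.card (𝔪.inertia G) = p ∧
    ∃ (τ : G) (n D : ℕ) (x : Fin n → B) (w : Fin n → ℕ) (f : Fin n → MvPolynomial (Fin n) k),
      τ ∈ 𝔪.inertia G ∧ τ ≠ 1 ∧ IsLocalCoordinates 𝔪 x ∧ (∀ i, 0 < w i) ∧ 0 < D ∧
      (∀ i, (f i).IsWeightedHomogeneous w (w i + D)) ∧
      (∀ a : Fin n → k, (∀ i, MvPolynomial.eval a (f i) = 0) → a = 0) ∧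
      ∀ i, HasWeight 𝔪 x w (w i + D + 1) (τ • x i - x i - MvPolynomial.aeval x (f i))

/-- The quotient `Spec B / G`: the spectrum of the ring of invariants. -/
noncomputable def quot (k B G : Type) [Field k] [CommRing B] [Algebra k B] [Group G]
    [MulSemiringAction G B] [SMulCommClass G k B] : Scheme.{0} :=
  Spec (CommRingCat.of (FixedPoints.subalgebra k B G))

/-- The structure morphism of the quotient. -/
noncomputable def quotStr (k B G : Type) [Field k] [CommRing B] [Algebra k B] [Group G]
    [MulSemiringAction G B] [SMulCommClass G k B] : quot k B G ⟶ Spec (CommRingCat.of k) :=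
  Spec.map (CommRingCat.ofHom (algebraMap k (FixedPoints.subalgebra k B G)))

/-- Let `k` be an algebraically closed field of characteristic `p > 0` and let `G` be a finite
group acting faithfully on a smooth affine variety `Z = Spec B` over `k`. If the inertia group of
each closed point is trivial, or of order `p` with a nondegenerate action at the point, then the
quotient `Z / G` is a variety and has a resolution of singularities. (The points with nontrivial
inertia group are isolated.) -/
theorem result (p : ℕ) [Fact p.Prime] (k : Type) [Field k] [IsAlgClosed k] [CharP k p]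
    (G : Type) [Group G] [Finite G] (B : Type) [CommRing B] [IsDomain B] [IsRegularRing B]
    [Algebra k B] [Algebra.FiniteType k B] [MulSemiringAction G B] [SMulCommClass G k B]
    [FaithfulSMul G B]
    (h : ∀ 𝔪 : Ideal B, 𝔪.IsMaximal → 𝔪.inertia G = ⊥ ∨ IsNondegenerate p k G 𝔪) :
    IsVariety (quotStr k B G) ∧ HasResolution (quotStr k B G) := by
  let θ : G →* (B ≃ₐ[k] B) := MulSemiringAction.toAlgAut G k B
  have hθ : Function.Injective θ := by
    intro a b hab
    exact FaithfulSMul.eq_of_smul_eq_smul fun o : B =>
      congrArg (fun f : B ≃ₐ[k] B => f o) hab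
  have hinv : FixedPoints.subalgebra k B G = Pool.Agent.Zk15.F.invS θ := by
    ext b
    rfl
  have hne : ∀ 𝔪 : Ideal B, 𝔪.inertia G ≠ ⊥ ↔ ∃ g, g ≠ 1 ∧ ∀ b, θ g b - b ∈ 𝔪 := by
    intro 𝔪
    rw [Subgroup.ne_bot_iff_exists_ne_one]
    constructor
    · rintro ⟨g, hg⟩
      exact ⟨g, fun h => hg (Subtype.ext h), fun b => g.2 b⟩
    · rintro ⟨g, hg, h⟩
      exact ⟨⟨g, h⟩, fun h' => hg (congrArg Subtype.val h')⟩
  refine ⟨?_, ?_⟩
  · have h1 : Algebra.FiniteType k (FixedPoints.subalgebra k B G) := by
      rw [hinv]
      exact Pool.Agent.Zk15.F.invS_ft θ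
    exact Pool.Agent.H920R2.isVariety_spec
  · have h0 : ∀ 𝔪 : Ideal B, 𝔪.IsMaximal → (∃ g, g ≠ 1 ∧ ∀ b, θ g b - b ∈ 𝔪) →
        ∃ (n : ℕ) (x : Fin n → B) (w : Fin n → ℕ) (D : ℕ) (τ : G)
        (f : Fin n → MvPolynomial (Fin n) k), Pool.Agent.Zk10.NW.LOk θ p 𝔪 x w D τ f := by
      intro 𝔪 h2 h3
      obtain ⟨h4, τ, n, D, x, w, f, h5, h6, ⟨h7, h8, h9⟩, h10, h11, h12, h13, h14⟩ :=
        (h 𝔪 h2).resolve_left ((hne 𝔪).2 h3)
      exact ⟨n, x, w, D, τ, f, Pool.Agent.Zk10.NW.lok_of θ Fact.out h2 (𝔪.inertia G)
        (fun g => Iff.rfl) h4 h5 h6 h7 h8 h9 h10 h11 h12 h13 h14⟩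
    have hN : IsNoetherianRing B := Algebra.FiniteType.isNoetherianRing k B
    have h1 := Pool.Agent.Zk10.NW.main_all θ hθ p (Pool.Agent.Zk10.NW.nd_fin p h0) h0
    rw [← hinv] at h1
    exact h1

/-- **Example: quotients of tori.** Let `T` be the torus `t 0 * t 1 * ... * t (p - 1) = 1` of
dimension `p - 1` over an algebraically closed field `k` of characteristic `p`, and let the group
`G` of order `p` act on `Z = T ^ m = Spec B` by the cyclic permutation of the coordinates
(`g ∈ G` maps `t i j` to `t i (j + 1)`). Then `Z / G`, of dimension `m (p - 1)`, has a resolution.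
The group `G` has exactly one fixed point; the weights are `1, 2, ..., p - 1` in each copy of
`T`, and `D = 1`. -/
theorem torus (p : ℕ) [Fact p.Prime] (k : Type) [Field k] [IsAlgClosed k] [CharP k p]
    (G : Type) [Group G] (hG : Nat.card G = p) (g : G) (hg : g ≠ 1)
    (B : Type) [CommRing B] [IsDomain B] [Algebra k B] [MulSemiringAction G B]
    [SMulCommClass G k B] [FaithfulSMul G B] (m : ℕ) (t : Fin m → ZMod p → B)
    (hprod : ∀ i, ∏ j, t i j = 1) (hgen : Algebra.adjoin k {b | ∃ i j, b = t i j} = ⊤)
    (hind : AlgebraicIndependent k fun a : Fin m × {j : ZMod p // j ≠ 0} => t a.1 a.2)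
    (hgt : ∀ i j, g • t i j = t i (j + 1)) :
    IsVariety (quotStr k B G) ∧ HasResolution (quotStr k B G) := by
  classical
  have hp1 : 1 < p := (Fact.out : p.Prime).one_lt
  have hfin : Finite G := Nat.finite_of_card_ne_zero (by rw [hG]; omega)
  let θ : G →* (B ≃ₐ[k] B) := MulSemiringAction.toAlgAut G k B
  have hσ : ∀ i j, θ g (t i j) = t i (j + 1) := hgt
  obtain ⟨h1, h2, h3⟩ := Pool.Agent.Zk10.NW.torus_ring (θ g) t hprod hgen hind hσ
  have h4 : Algebra.FiniteType k B := Pool.Agent.Zk10.NW.torus_ft (θ g) t hprod hgen hσ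
  set 𝔪 : Ideal B := Pool.Agent.Zk10.NW.m1 (θ g) t hprod with h𝔪
  have hs := Pool.Agent.Zk10.NW.sum_bb (θ g) t hprod hσ
  have hgen' := Pool.Agent.Zk10.NW.gen_bb (θ g) t hprod hgen hσ
  have hmem : ∀ i, ∀ j, j < p - 1 → (Pool.Agent.Zk10.NW.sg (θ g) ^ j)
      (Pool.Agent.Zk10.NW.bb t hprod i) ∈ Pool.Agent.Zk10.NW.M1 𝔪 :=
    fun i j hj => Pool.Agent.Zk10.NW.mem_m1 (θ g) t hprod i j hj
  have hpf : Fact (Nat.card G).Prime := ⟨by rw [hG]; exact Fact.out⟩
  have hin : ∀ 𝔫 : Ideal B, 𝔫.inertia G ≠ ⊥ → 𝔫.inertia G = ⊤ := fun 𝔫 h =>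
    (Subgroup.eq_bot_or_eq_top_of_prime_card (𝔫.inertia G)).resolve_left h
  have hone : ∀ 𝔫 : Ideal B, 𝔫.IsMaximal → 𝔫.inertia G ≠ ⊥ → 𝔫 = 𝔪 := by
    intro 𝔫 h5 h6
    have h7 : g ∈ 𝔫.inertia G := by
      rw [hin 𝔫 h6]
      trivial
    exact (h2.eq_of_le h5.ne_top (Pool.Agent.Zk10.NW.m1_le (θ g) t hprod hσ 𝔫 h5 h7)).symm
  have hg𝔪 : g ∈ 𝔪.inertia G :=
    fun b => Pool.Agent.Zk10.NW.sg_iner hs hgen' hmem hp1 b
  have hsp := Pool.Agent.Zk10.NW.span_xx hs hgen' h2 hmem hp1
  refine result p k G B ?_
  intro 𝔫 h5
  by_cases h6 : 𝔫.inertia G = ⊥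
  · exact Or.inl h6
  refine Or.inr ?_
  rw [hone 𝔫 h5 h6]
  refine ⟨?_, g, m * (p - 1), 1, Pool.Agent.Zk10.NW.xx (θ g) p
    (Pool.Agent.Zk10.NW.bb t hprod), Pool.Agent.Zk10.NW.ww m p, Pool.Agent.Zk10.NW.ff k m p,
    hg𝔪, hg, ⟨?_, ?_, h3⟩, fun _ => Nat.succ_pos _, Nat.one_pos,
    Pool.Agent.Zk10.NW.ff_hom, Pool.Agent.Zk10.NW.ff_zero,
    Pool.Agent.Zk10.NW.lead_x hs hgen' h2 hmem⟩
  · rw [hin 𝔪 (fun h => hg ?_), Subgroup.card_top, hG]
    rw [h] at hg𝔪
    exact Subgroup.mem_bot.1 hg𝔪
  · intro i
    have h7 : Pool.Agent.Zk10.NW.xx (θ g) p (Pool.Agent.Zk10.NW.bb t hprod) i ∈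
        Ideal.span (Set.range (Pool.Agent.Zk10.NW.xx (θ g) p
          (Pool.Agent.Zk10.NW.bb t hprod))) := Ideal.subset_span ⟨i, rfl⟩
    rwa [hsp] at h7
  · intro b hb
    refine ⟨1, fun h => h2.ne_top ((Ideal.eq_top_iff_one _).2 h), ?_⟩
    rw [one_mul, hsp]
    exact hb

end Pool.Agent.Results.MP_19ffc6_ag.NondegenerateWildQuotients
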