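import Pool.Agent.Zk15.Fp19
import Pool.Agent.Zk15.Ff13
import Pool.Agent.Zk15.Mink2

/-!
MP_19ffc6_ag: algebraic tori over function fields of one variable, in all dimensions, with wild
ramification.

Let `k` be a perfect field of characteristic `p`.

(1) Let `E` be a function field of one variable over `k` and let `T` be a torus over `E` of
dimension `n < 2 (p - 1)`, for example `n = 3` and `p > 2`. Then the function field of `T` is the
function field of a smooth projective variety over `k` (of dimension `n + 1`). There is no
hypothesis on the torus or on the ramification (wild, with arbitrary breaks) of its splitting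
field. More generally, this is proved for all tori such that the orders of the inertia groups of
the splitting field are not divisible by `p ^ 2`, or such that `n - r < 2 (p - 1)`, where `r` is the
rank of the invariants of the inertia group in the character group, for example for the tori
`T × 𝔾_m ^ N`, where `dim T < 2 (p - 1)` and `N` is arbitrary.

(2) Let `C` be a smooth affine curve over `k` with a faithful action of a finite group `G` which
acts also on the character lattice of `𝔾_m ^ n`. Under the same hypothesis on the inertia groups of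
the closed points of `C` the variety `X = (C × 𝔾_m ^ n) / G` has a resolution of singularities.
The generic fibre of `X → C / G` is a torus, and every torus over a function field of one variable
over `k` is of this form.

The proof: (a) equivariant smooth compactification of the torus (`exists_SP`), for every action of
a finite group on a lattice. (b) At the points of `C` with wild inertia (of order `p`) there
are weighted blowups of the product of `C` and the toric variety, with weights which depend on the
jump of the ramification filtration and on the action on the lattice, on which the leading form of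
`g - 1` has no zeros for the wild automorphism `g` (`wd_main`). (c) The quotient of the weighted
blowup by `G` is resolved as a stack quotient by `𝔾_m` of a regular scheme, with the machinery of
the starting files behind WeightedWildQuotients, which is redone here for arbitrary groups over
bases of positive characteristic; for (2) over the ring of invariants of the torus (`assemF`), for
(1) over two affine pieces of the projective curve, which are glued to one projective model
(`twoBase`, `projM`). (d) A finite group which acts faithfully on `Λ` has order not divisible by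
`p ^ 2` if `n - r < 2 (p - 1)` (Minkowski; `mink_inv`).
-/

set_option autoImplicit false

open AlgebraicGeometry CategoryTheory
open Pool.Agent.H920R2 (IsVariety HasResolution)

namespace Pool.Agent.Results.MP_19ffc6_ag.ToriOverFunctionFields

/-- The order of the finite group `H` is not divisible by `p ^ 2`, or `H` acts faithfully on the
lattice `Λ` and `n - r < 2 (p - 1)`, where `n` is the rank of `Λ` and `r` is the rank of the
sublattice of the invariants of `H`. -/
def IsGood (p : ℕ) (H Λ : Type) [Group H] [AddCommGroup Λ] [DistribMulAction H Λ] : Prop :=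
  ¬ p ^ 2 ∣ Nat.card H ∨ (FaithfulSMul H Λ ∧
    Module.finrank ℤ Λ < Module.finrank ℤ (FixedPoints.addSubgroup H Λ) + 2 * (p - 1))

/-- Minkowski. -/
lemma IsGood.not_dvd {p : ℕ} (hp : p.Prime) {H Λ : Type} [Group H] [Finite H] [AddCommGroup Λ]
    [Module.Finite ℤ Λ] [Module.Free ℤ Λ] [DistribMulAction H Λ] (h : IsGood p H Λ) :
    ¬ p ^ 2 ∣ Nat.card H := by
  rcases h with h | ⟨hf, hn⟩
  · exact h
  · refine Pool.Agent.Zk15.mink_inv hp (DistribMulAction.toModuleAut ℤ Λ)
      (AddSubgroup.toIntSubmodule (FixedPoints.addSubgroup H Λ)) (fun μ => Iff.rfl) hn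
      fun g hg => ?_
    exact FaithfulSMul.eq_of_smul_eq_smul fun μ : Λ => (hg μ).trans (one_smul H μ).symm

section

variable (E M Λ : Type) [Field E] [Field M] [Algebra E M] [AddCommGroup Λ]
  [DistribMulAction (M ≃ₐ[E] M) Λ]

/-- The automorphism of `M[Λ]` given by an element of the Galois group (used only for the proof
that the invariants are a subalgebra). -/
noncomputable def act (g : M ≃ₐ[E] M) : AddMonoidAlgebra M Λ ≃ₐ[E] AddMonoidAlgebra M Λ :=
  (AddMonoidAlgebra.domCongr E M (DistribMulAction.toAddEquiv Λ g)).trans
    (AddMonoidAlgebra.mapAlgEquiv E Λ g)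

lemma act_coeff (g : M ≃ₐ[E] M) (b : AddMonoidAlgebra M Λ) (μ : Λ) :
    (act E M Λ g b).coeff μ = g (b.coeff (g⁻¹ • μ)) := by
  change (AddMonoidAlgebra.mapAlgHom Λ (g : M →ₐ[E] M)
    (AddMonoidAlgebra.domCongr E M (DistribMulAction.toAddEquiv Λ g) b)).coeff μ = _
  rw [AddMonoidAlgebra.coeff_mapAlgHom, AddMonoidAlgebra.coeff_domCongr]
  rfl

lemma act_single (g : M ≃ₐ[E] M) (μ : Λ) (o : M) :
    act E M Λ g (AddMonoidAlgebra.single μ o) = AddMonoidAlgebra.single (g • μ) (g o) := by
  change AddMonoidAlgebra.mapAlgHom Λ (g : M →ₐ[E] M)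
    (AddMonoidAlgebra.domCongr E M (DistribMulAction.toAddEquiv Λ g)
      (AddMonoidAlgebra.single μ o)) = _
  rw [AddMonoidAlgebra.domCongr_single, AddMonoidAlgebra.mapAlgHom_single]
  rfl

lemma act_iff (g : M ≃ₐ[E] M) (b : AddMonoidAlgebra M Λ) :
    act E M Λ g b = b ↔ ∀ μ, b.coeff (g • μ) = g (b.coeff μ) := by
  constructor
  · intro h μ
    have h1 := act_coeff E M Λ g b (g • μ)
    rwa [h, inv_smul_smul] at h1
  · intro h
    ext μ
    rw [act_coeff, ← h, smul_inv_smul]

/-- The coordinate ring of the torus over `E` which is split by the Galois extension `M` of `E` and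
has the character lattice `Λ`, with the action of the Galois group on it: the ring of the
invariants of the Galois group on the ring `M[Λ]` of Laurent polynomials with coefficients in `M`
and exponents in `Λ`; the Galois group acts on the coefficients and on the exponents. -/
def coordinateRing : Subalgebra E (AddMonoidAlgebra M Λ) where
  carrier := {b | ∀ (g : M ≃ₐ[E] M) (μ : Λ), b.coeff (g • μ) = g (b.coeff μ)}
  mul_mem' := fun {a b} ha hb g => by
    have h1 := (act_iff E M Λ g a).2 (ha g)
    have h2 := (act_iff E M Λ g b).2 (hb g)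
    exact (act_iff E M Λ g _).1 (by rw [map_mul, h1, h2])
  add_mem' := fun {a b} ha hb g => by
    have h1 := (act_iff E M Λ g a).2 (ha g)
    have h2 := (act_iff E M Λ g b).2 (hb g)
    exact (act_iff E M Λ g _).1 (by rw [map_add, h1, h2])
  algebraMap_mem' := fun c g => (act_iff E M Λ g _).1 (AlgEquiv.commutes _ _)

end

/-- The field `F` is the function field of a smooth projective variety over `k`, given by
homogeneous coordinates `H 0, ..., H N` in `F`: the coordinate rings `k[H 0 / H i, ..., H N / H i]`
of the charts are smooth over `k` and have the fraction field `F`. -/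
def HasSmoothProjectiveModel (k F : Type) [Field k] [Field F] [Algebra k F] : Prop :=
  ∃ (N : ℕ) (H : Fin (N + 1) → F), (∀ i, H i ≠ 0) ∧ ∀ i,
    Algebra.Smooth k (Algebra.adjoin k (Set.range fun j => H j / H i)) ∧
    IsFractionRing (Algebra.adjoin k (Set.range fun j => H j / H i)) F

/-- The inertia group of the valuation ring `V` of `M` over `E` (Mathlib's `inertiaSubgroup`, as a
subgroup of the Galois group). -/
noncomputable def inertiaGroup (E : Type) {M : Type} [Field E] [Field M] [Algebra E M]
    (V : ValuationSubring M) : Subgroup (M ≃ₐ[E] M) :=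
  (V.inertiaSubgroup E).map (V.decompositionSubgroup E).subtype

/-- Function fields of tori. -/
theorem torus (p : ℕ) [Fact p.Prime] (k : Type) [Field k] [CharP k p] [PerfectField k]
    (E : Type) [Field E] [Algebra k E] [Algebra.EssFiniteType k E] (hE : Algebra.trdeg k E = 1)
    (M : Type) [Field M] [Algebra E M] [FiniteDimensional E M] [IsGalois E M] [Algebra k M]
    [IsScalarTower k E M] (Λ : Type) [AddCommGroup Λ] [Module.Finite ℤ Λ] [Module.Free ℤ Λ]
    [DistribMulAction (M ≃ₐ[E] M) Λ]
    (F : Type) [Field F] [Algebra (coordinateRing E M Λ) F]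
    [IsFractionRing (coordinateRing E M Λ) F] [Algebra k F]
    [IsScalarTower k (coordinateRing E M Λ) F]
    (hG : ∀ V : ValuationSubring M, (∀ c : k, algebraMap k M c ∈ V) →
      IsGood p (inertiaGroup E V) Λ) :
    HasSmoothProjectiveModel k F := by
  classical
  have hp : p.Prime := Fact.out
  have hpk : (p : k) = 0 := CharP.cast_eq_zero k p
  let n := Module.finrank ℤ Λ
  let e0 : Module.Basis (Fin n) ℤ Λ := Module.finBasis ℤ Λ
  have hus : UniqueSums Λ :=
    (AddEquiv.uniqueSums_iff e0.equivFun.toAddEquiv).2 inferInstance
  have hdom : IsDomain (AddMonoidAlgebra M Λ) := NoZeroDivisors.to_isDomain _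
  let φ : (M ≃ₐ[E] M) →* (Λ ≃ₗ[ℤ] Λ) := DistribMulAction.toModuleAut ℤ Λ
  let θ : (M ≃ₐ[E] M) →* (AddMonoidAlgebra M Λ ≃ₐ[k] AddMonoidAlgebra M Λ) :=
    { toFun := fun g => (act E M Λ g).restrictScalars k
      map_one' := by
        refine AlgEquiv.ext fun b => ?_
        change act E M Λ 1 b = b
        rw [act_iff]
        intro μ
        rw [one_smul, AlgEquiv.one_apply]
      map_mul' := by
        intro g h
        refine AlgEquiv.ext fun b => ?_
        change act E M Λ (g * h) b = act E M Λ g (act E M Λ h b)
        ext μ
        rw [act_coeff, act_coeff, act_coeff, mul_inv_rev, mul_smul, AlgEquiv.mul_apply] }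
  have hθ : ∀ g b, θ g b = act E M Λ g b := fun g b => rfl
  have hin : ∀ V : ValuationSubring M, (∀ c : k, algebraMap k M c ∈ V) → V ≠ ⊤ →
      ¬ p ^ 2 ∣ Nat.card (V.inertiaSubgroup E) := by
    intro V hV _
    have h1 := (hG V hV).not_dvd hp
    have h2 : Nat.card (inertiaGroup E V) = Nat.card (V.inertiaSubgroup E) :=
      Nat.card_congr (Subgroup.equivMapOfInjective (V.inertiaSubgroup E)
        (V.decompositionSubgroup E).subtype (V.decompositionSubgroup E).subtype_injective).toEquiv.symm
    rwa [h2] at h1
  exact Pool.Agent.Zk15.torusHasSm (K := FractionRing (AddMonoidAlgebra M Λ)) hp hpk hE hin θ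
    (fun g o => by
      have h1 := act_single E M Λ g 0 o
      rw [smul_zero] at h1
      exact h1) e0 φ (fun μ => AddMonoidAlgebra.single μ 1) rfl
    (fun a b => by rw [AddMonoidAlgebra.single_mul_single, mul_one])
    (by
      rw [linearIndependent_iff']
      intro s c hc μ hμ
      have h1 := congrArg (fun f => AddMonoidAlgebra.coeff f μ) hc
      simp only [AddMonoidAlgebra.coeff_sum, Finsupp.finsetSum_apply,
        AddMonoidAlgebra.coeff_smul, Finsupp.smul_apply, AddMonoidAlgebra.coeff_single,
        Finsupp.single_apply, smul_eq_mul, mul_ite, mul_one, mul_zero,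
        AddMonoidAlgebra.coeff_zero, Finsupp.zero_apply, Finset.sum_ite_eq', if_pos hμ] at h1
      exact h1)
    (by
      rw [eq_top_iff]
      intro f _
      rw [← AddMonoidAlgebra.sum_coeff_single f]
      refine Subalgebra.sum_mem _ fun μ _ => ?_
      have h1 : (AddMonoidAlgebra.single μ (f.coeff μ) : AddMonoidAlgebra M Λ) =
          f.coeff μ • AddMonoidAlgebra.single μ 1 := by
        rw [AddMonoidAlgebra.smul_single, smul_eq_mul, mul_one]
      rw [h1]
      have h2 : (AddMonoidAlgebra.single μ 1 : AddMonoidAlgebra M Λ) ∈
          Algebra.adjoin M (Set.range fun μ : Λ =>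
            (AddMonoidAlgebra.single μ 1 : AddMonoidAlgebra M Λ)) :=
        Algebra.subset_adjoin (Set.mem_range_self μ)
      exact Subalgebra.smul_mem _ h2 _)
    (fun g μ => by
      have h1 := act_single E M Λ g μ 1
      rw [map_one] at h1
      exact h1)
    (D := coordinateRing E M Λ) ((coordinateRing E M Λ).val.restrictScalars k)
    Subtype.val_injective
    (fun b => by
      constructor
      · intro h
        exact ⟨⟨b, fun g => (act_iff E M Λ g b).1 (h g)⟩, rfl⟩
      · rintro ⟨d, rfl⟩ g
        exact (act_iff E M Λ g _).2 (d.2 g))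

section

variable (k O G Λ : Type) [Field k] [CommRing O] [Algebra k O] [Group G] [MulSemiringAction G O]
  [SMulCommClass G k O] [AddCommGroup Λ] [DistribMulAction G Λ]

/-- The automorphism of `O[Λ]` given by an element of `G` (used only for the proof that the
invariants are a subalgebra). -/
noncomputable def actO (g : G) : AddMonoidAlgebra O Λ ≃ₐ[k] AddMonoidAlgebra O Λ :=
  (AddMonoidAlgebra.domCongr k O (DistribMulAction.toAddEquiv Λ g)).trans
    (AddMonoidAlgebra.mapAlgEquiv k Λ (MulSemiringAction.toAlgEquiv k O g))

lemma act_coeffO (g : G) (b : AddMonoidAlgebra O Λ) (μ : Λ) :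
    (actO k O G Λ g b).coeff μ = g • b.coeff (g⁻¹ • μ) := by
  change (AddMonoidAlgebra.mapAlgHom Λ ((MulSemiringAction.toAlgEquiv k O g : O ≃ₐ[k] O) :
    O →ₐ[k] O) (AddMonoidAlgebra.domCongr k O (DistribMulAction.toAddEquiv Λ g) b)).coeff μ = _
  rw [AddMonoidAlgebra.coeff_mapAlgHom, AddMonoidAlgebra.coeff_domCongr]
  rfl

lemma act_singleO (g : G) (μ : Λ) (o : O) :
    actO k O G Λ g (AddMonoidAlgebra.single μ o) = AddMonoidAlgebra.single (g • μ) (g • o) := by
  change AddMonoidAlgebra.mapAlgHom Λ ((MulSemiringAction.toAlgEquiv k O g : O ≃ₐ[k] O) :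
    O →ₐ[k] O) (AddMonoidAlgebra.domCongr k O (DistribMulAction.toAddEquiv Λ g)
      (AddMonoidAlgebra.single μ o)) = _
  rw [AddMonoidAlgebra.domCongr_single, AddMonoidAlgebra.mapAlgHom_single]
  rfl

lemma act_iffO (g : G) (b : AddMonoidAlgebra O Λ) :
    actO k O G Λ g b = b ↔ ∀ μ, b.coeff (g • μ) = g • b.coeff μ := by
  constructor
  · intro h μ
    have h1 := act_coeffO k O G Λ g b (g • μ)
    rwa [h, inv_smul_smul] at h1
  · intro h
    ext μ
    rw [act_coeffO, ← h, smul_inv_smul]

/-- The ring of invariants of the group `G` on the ring `O[Λ]` of Laurent polynomials with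
coefficients in `O` and exponents in the lattice `Λ`; `G` acts on the coefficients and on the
exponents. -/
def invariants : Subalgebra k (AddMonoidAlgebra O Λ) where
  carrier := {b | ∀ (g : G) (μ : Λ), b.coeff (g • μ) = g • b.coeff μ}
  mul_mem' := fun {a b} ha hb g => by
    have h1 := (act_iffO k O G Λ g a).2 (ha g)
    have h2 := (act_iffO k O G Λ g b).2 (hb g)
    exact (act_iffO k O G Λ g _).1 (by rw [map_mul, h1, h2])
  add_mem' := fun {a b} ha hb g => by
    have h1 := (act_iffO k O G Λ g a).2 (ha g)
    have h2 := (act_iffO k O G Λ g b).2 (hb g)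
    exact (act_iffO k O G Λ g _).1 (by rw [map_add, h1, h2])
  algebraMap_mem' := fun c g => (act_iffO k O G Λ g _).1 (AlgEquiv.commutes _ _)

/-- The quotient `(Spec O × 𝔾_m ^ n) / G`, where `Λ` is the character lattice of the torus
`𝔾_m ^ n`. -/
noncomputable def quot : Scheme.{0} := Spec (CommRingCat.of (invariants k O G Λ))

/-- The structure morphism of the quotient. -/
noncomputable def quotStr : quot k O G Λ ⟶ Spec (CommRingCat.of k) :=
  Spec.map (CommRingCat.ofHom (algebraMap k (invariants k O G Λ)))

end

/-- Quotients of products of curves and tori. -/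
theorem quotient (p : ℕ) [Fact p.Prime] (k : Type) [Field k] [CharP k p] [PerfectField k]
    (O : Type) [CommRing O] [IsDedekindDomain O] [Algebra k O] [Algebra.FiniteType k O]
    (G : Type) [Group G] [Finite G] [MulSemiringAction G O] [SMulCommClass G k O]
    [FaithfulSMul G O] (Λ : Type) [AddCommGroup Λ] [Module.Finite ℤ Λ] [Module.Free ℤ Λ]
    [DistribMulAction G Λ] (hG : ∀ 𝔓 : Ideal O, 𝔓.IsMaximal → IsGood p (𝔓.inertia G) Λ) :
    IsVariety (quotStr k O G Λ) ∧ HasResolution (quotStr k O G Λ) := by
  classical
  have hp : p.Prime := Fact.out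
  have hpk : (p : k) = 0 := CharP.cast_eq_zero k p
  let n := Module.finrank ℤ Λ
  let e0 : Module.Basis (Fin n) ℤ Λ := Module.finBasis ℤ Λ
  have hΛ : AddMonoid.FG Λ :=
    AddGroup.fg_iff_addMonoid_fg.1 (Module.Finite.iff_addGroup_fg.1 inferInstance)
  have hft : Algebra.FiniteType k (AddMonoidAlgebra O Λ) :=
    Algebra.FiniteType.trans (inferInstance : Algebra.FiniteType k O) inferInstance
  have hus : UniqueSums Λ :=
    (AddEquiv.uniqueSums_iff e0.equivFun.toAddEquiv).2 inferInstance
  have hdom : IsDomain (AddMonoidAlgebra O Λ) := NoZeroDivisors.to_isDomain _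
  let T : G →* (O ≃ₐ[k] O) := MulSemiringAction.toAlgAut G k O
  have hT : Function.Injective T := by
    intro a b hab
    exact FaithfulSMul.eq_of_smul_eq_smul fun o : O => congrArg (fun f : O ≃ₐ[k] O => f o) hab
  let φ : G →* (Λ ≃ₗ[ℤ] Λ) := DistribMulAction.toModuleAut ℤ Λ
  let θ : G →* (AddMonoidAlgebra O Λ ≃ₐ[k] AddMonoidAlgebra O Λ) :=
    { toFun := actO k O G Λ
      map_one' := by
        refine AlgEquiv.ext fun b => ?_
        rw [AlgEquiv.one_apply, act_iffO]
        intro μ
        rw [one_smul, one_smul]
      map_mul' := by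
        intro g h
        refine AlgEquiv.ext fun b => ?_
        rw [AlgEquiv.mul_apply]
        ext μ
        rw [act_coeffO, act_coeffO, act_coeffO, mul_inv_rev, mul_smul, mul_smul] }
  have hθ : ∀ g b, θ g b = actO k O G Λ g b := fun g b => rfl
  have hin' : ∀ 𝔓 : Ideal O, 𝔓.IsMaximal → 𝔓 ≠ ⊥ →
      ¬ p ^ 2 ∣ Nat.card (Pool.Agent.Zk15.F.inG T 𝔓) := fun 𝔓 h𝔓 _ => (hG 𝔓 h𝔓).not_dvd hp
  have hinv : invariants k O G Λ = Pool.Agent.Zk15.F.invS θ := by
    ext b
    change (∀ (g : G) (μ : Λ), b.coeff (g • μ) = g • b.coeff μ) ↔ ∀ g, actO k O G Λ g b = b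
    exact forall_congr' fun g => (act_iffO k O G Λ g b).symm
  refine ⟨?_, ?_⟩
  · have h1 : Algebra.FiniteType k (invariants k O G Λ) := by
      rw [hinv]
      exact Pool.Agent.Zk15.F.invS_ft θ
    exact Pool.Agent.H920R2.isVariety_spec
  · have h1 := Pool.Agent.Zk15.F.curveResK (K := FractionRing (AddMonoidAlgebra O Λ)) hp hpk T
      hT hin' θ (fun g o => by
        have h1 := act_singleO k O G Λ g 0 o
        rw [smul_zero] at h1
        exact h1) e0 φ (fun μ => AddMonoidAlgebra.single μ 1) rfl
      (fun a b => by rw [AddMonoidAlgebra.single_mul_single, mul_one])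
      (by
        rw [linearIndependent_iff']
        intro s c hc μ hμ
        have h1 := congrArg (fun f => AddMonoidAlgebra.coeff f μ) hc
        simp only [AddMonoidAlgebra.coeff_sum, Finsupp.finsetSum_apply,
          AddMonoidAlgebra.coeff_smul, Finsupp.smul_apply, AddMonoidAlgebra.coeff_single,
          Finsupp.single_apply, smul_eq_mul, mul_ite, mul_one, mul_zero,
          AddMonoidAlgebra.coeff_zero, Finsupp.zero_apply, Finset.sum_ite_eq', if_pos hμ] at h1
        exact h1)
      (by
        rw [eq_top_iff]
        intro f _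
        rw [← AddMonoidAlgebra.sum_coeff_single f]
        refine Subalgebra.sum_mem _ fun μ _ => ?_
        have h1 : (AddMonoidAlgebra.single μ (f.coeff μ) : AddMonoidAlgebra O Λ) =
            f.coeff μ • AddMonoidAlgebra.single μ 1 := by
          rw [AddMonoidAlgebra.smul_single, smul_eq_mul, mul_one]
        rw [h1]
        have h2 : (AddMonoidAlgebra.single μ 1 : AddMonoidAlgebra O Λ) ∈
            Algebra.adjoin O (Set.range fun μ : Λ =>
              (AddMonoidAlgebra.single μ 1 : AddMonoidAlgebra O Λ)) :=
          Algebra.subset_adjoin (Set.mem_range_self μ)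
        exact Subalgebra.smul_mem _ h2 _)
      (fun g μ => by
        have h1 := act_singleO k O G Λ g μ 1
        rw [smul_one] at h1
        exact h1)
    rw [← hinv] at h1
    exact h1

/-- Let `k` be a perfect field of characteristic `p > 0`.

(1) Let `E` be a function field of one variable over `k`, let `M` be a finite Galois extension of
`E` whose Galois group acts on the lattice `Λ`, and let `F` be the function field of the torus over
`E` with the character lattice `Λ`. If the inertia groups of all valuation rings of `M` which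
contain `k` are good, then `F` is the function field of a smooth projective variety over `k`.

(2) Let `C = Spec O` be a smooth affine curve over `k` with a faithful action of the finite group
`G`, which acts also on the lattice `Λ`, the character group of `𝔾_m ^ n`. If the inertia groups of
all closed points of `C` are good, then the variety `(C × 𝔾_m ^ n) / G` has a resolution of
singularities. -/
theorem result (p : ℕ) [Fact p.Prime] (k : Type) [Field k] [CharP k p] [PerfectField k] :
    (∀ (E : Type) [Field E] [Algebra k E] [Algebra.EssFiniteType k E] (_ : Algebra.trdeg k E = 1)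
      (M : Type) [Field M] [Algebra E M] [FiniteDimensional E M] [IsGalois E M] [Algebra k M]
      [IsScalarTower k E M] (Λ : Type) [AddCommGroup Λ] [Module.Finite ℤ Λ] [Module.Free ℤ Λ]
      [DistribMulAction (M ≃ₐ[E] M) Λ]
      (F : Type) [Field F] [Algebra (coordinateRing E M Λ) F]
      [IsFractionRing (coordinateRing E M Λ) F] [Algebra k F]
      [IsScalarTower k (coordinateRing E M Λ) F],
      (∀ V : ValuationSubring M, (∀ c : k, algebraMap k M c ∈ V) →
        IsGood p (inertiaGroup E V) Λ) →
      HasSmoothProjectiveModel k F) ∧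
    (∀ (O : Type) [CommRing O] [IsDedekindDomain O] [Algebra k O] [Algebra.FiniteType k O]
      (G : Type) [Group G] [Finite G] [MulSemiringAction G O] [SMulCommClass G k O]
      [FaithfulSMul G O] (Λ : Type) [AddCommGroup Λ] [Module.Finite ℤ Λ] [Module.Free ℤ Λ]
      [DistribMulAction G Λ],
      (∀ 𝔓 : Ideal O, 𝔓.IsMaximal → IsGood p (𝔓.inertia G) Λ) →
      IsVariety (quotStr k O G Λ) ∧ HasResolution (quotStr k O G Λ)) :=
  ⟨fun E _ _ _ hE M _ _ _ _ _ _ Λ _ _ _ _ F _ _ _ _ _ hG => torus p k E hE M Λ F hG,
    fun O _ _ _ _ G _ _ _ _ _ Λ _ _ _ _ hG => quotient p k O G Λ hG⟩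

end Pool.Agent.Results.MP_19ffc6_ag.ToriOverFunctionFields
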